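import Mathlib
import Pool.Agent.H14.Weier

set_option autoImplicit false

namespace Pool.Agent.Results.MP_0a5dd0_an.Exists

open Pool.Agent.H14.Weier in
theorem result (b : ℕ) (hb : 2 ≤ b) (α : ℝ) (h0 : 0 < α) (h1 : α < 1) :
    ∃ m : ℕ, 1 ≤ m ∧ ∃ g : Fin m → ℝ → ℝ,
      (∀ i, Function.Periodic (g i) 1 ∧ ∃ L, LipschitzWith L (g i)) ∧ ∃ C : ℝ, 1 ≤ C ∧ ∀ x y : ℝ,
        C⁻¹ * d x y ^ α ≤ ‖Phi α b g x - Phi α b g y‖ ∧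
        ‖Phi α b g x - Phi α b g y‖ ≤ C * d x y ^ α :=
  main hb h0 h1

end Pool.Agent.Results.MP_0a5dd0_an.Exists
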